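import Pool.Agent.Helper90.TS.CStmts

/-!
# TRC: the trace of a tuple on `dcl(Φ(C))`
-/

set_option autoImplicit false

namespace Pool.Agent.Helper90.TS

open FirstOrder Language

theorem st_TRC (hS : ST_CSEMB) (hU : ST_UCODE) (hUU : ST_UU1) (hI : ST_CINV) (hC : ST_CCNT) :
    ST_TRC := by
  intro L C _ T n c
  classical
  -- triples
  let JB : ℕ → Type := fun k =>
    {B : Set (Fin k → C) // Z0 L B ∧ Bdd T.S B ∧ ∀ x ∈ B, ∀ i, x i ∈ T.UU}
  let JE : ℕ → Type := fun k => {E : Set (Fin n ⊕ Fin k → C) // Z0 L E}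
  let J : Type := Σ k : ℕ, JB k × JE k
  haveI hJB : ∀ k, Countable (JB k) := by
    intro k
    have h1 := hC L C (Fin k) (∅ : Set C) T.hM.lang Set.countable_empty
    have h2 : {B : Set (Fin k → C) | Z0 L B ∧ Bdd T.S B ∧ ∀ x ∈ B, ∀ i, x i ∈ T.UU}.Countable :=
      h1.mono (fun B hB => hB.1)
    exact h2.to_subtype
  haveI hJE : ∀ k, Countable (JE k) := by
    intro k
    have h1 := hC L C (Fin n ⊕ Fin k) (∅ : Set C) T.hM.lang Set.countable_empty
    exact h1.to_subtype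
  haveI : Countable J := inferInstance
  -- the traces
  let DD : (j : J) → Set (Fin j.1 → T.V) := fun j =>
    {x | up x ∈ (j.2.1 : Set (Fin j.1 → C)) ∧ Sum.elim c (up x) ∈ (j.2.2 : Set (Fin n ⊕ Fin j.1 → C))}
  have him : ∀ j : J, im (DD j) = {x | x ∈ (j.2.1 : Set (Fin j.1 → C)) ∧
      Sum.elim c x ∈ (j.2.2 : Set (Fin n ⊕ Fin j.1 → C))} := by
    intro j
    ext x
    constructor
    · rintro ⟨y, hy, rfl⟩
      exact hy
    · rintro ⟨h1, h2⟩
      refine ⟨fun i => ⟨x i, j.2.1.2.2.2 x h1 i⟩, ⟨?_, ?_⟩, rfl⟩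
      · exact h1
      · exact h2
  have hDf : ∀ j : J, DD j ∈ T.Df (Fin j.1) := by
    intro j
    refine ⟨?_, (j.2.1 : Set (Fin j.1 → C)), j.2.1.2.1, j.2.1.2.2.1, ?_, j.2.1.2.2.2⟩
    · rw [him]
      have h1 := hS L C T.S T.hM T.stable (Fin j.1) (Fin n) (j.2.1 : Set (Fin j.1 → C))
        (j.2.2 : Set (Fin n ⊕ Fin j.1 → C)) c j.2.1.2.1 j.2.1.2.2.1 j.2.2.2
      refine h1.mono ?_
      rintro y ⟨x, hx, i, rfl⟩
      exact j.2.1.2.2.2 x hx i
    · rw [him]
      exact fun x hx => hx.1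
  have hcode : ∀ j : J, ∃ (k : ℕ) (e : Fin k → T.V),
      ∀ g : AutG L C, (∀ x, g • x ∈ DD j ↔ x ∈ DD j) ↔ g • e = e := fun j =>
    hU L C T (Fin j.1) (DD j) (hDf j)
  choose kk e he using hcode
  have hup : ∀ (g : AutG L C) (k : ℕ) (x : Fin k → T.V), up (g • x) = g • up x := fun _ _ _ => rfl
  -- invariance
  have hinv : ∀ {ι : Type} (D : Set (ι → C)), Z0 L D → ∀ (g : AutG L C) (x : ι → C),
      g • x ∈ D ↔ x ∈ D := by
    intro ι D hD g x
    exact (hI L C ι ∅ D hD).1 g (by rw [fx_empty]; trivial) x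
  have hfix : ∀ j : J, ∀ g : AutG L C, g • c = c → g • e j = e j := by
    intro j g hg
    apply (he j g).1
    intro x
    show up (g • x) ∈ (j.2.1 : Set (Fin j.1 → C)) ∧
      Sum.elim c (up (g • x)) ∈ (j.2.2 : Set (Fin n ⊕ Fin j.1 → C)) ↔
      up x ∈ (j.2.1 : Set (Fin j.1 → C)) ∧ Sum.elim c (up x) ∈ (j.2.2 : Set (Fin n ⊕ Fin j.1 → C))
    rw [hup, hinv _ j.2.1.2.1 g (up x)]
    have h1 : Sum.elim c (g • up x) = g • Sum.elim c (up x) := by
      rw [smul_elim, hg]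
    rw [h1, hinv _ j.2.2.2]
  have hall : ∀ g : AutG L C, (∀ j, g • e j = e j) → SameTr T c g := by
    intro g hg k E u hE hu
    obtain ⟨B, hB0, hBb, huB, hBU⟩ := (hUU L C T).2.2.1 (Fin k) u hu
    let j : J := ⟨k, ⟨B, hB0, hBb, hBU⟩, ⟨E, hE⟩⟩
    have h1 := (he j g⁻¹).2 (by rw [inv_smul_eq_iff]; exact (hg j).symm)
    let u' : Fin k → T.V := fun i => ⟨u i, hu i⟩
    have hu' : up u' = u := rfl
    have h2 : g⁻¹ • u' ∈ DD j ↔ u' ∈ DD j := h1 u'
    have h3 : u' ∈ DD j ↔ Sum.elim c u ∈ E := by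
      constructor
      · exact fun h => h.2
      · exact fun h => ⟨huB, h⟩
    have h4 : g⁻¹ • u' ∈ DD j ↔ Sum.elim c (g⁻¹ • u) ∈ E := by
      constructor
      · exact fun h => h.2
      · exact fun h => ⟨(hinv B hB0 g⁻¹ u).2 huB, h⟩
    have h5 : Sum.elim (g • c) u ∈ E ↔ Sum.elim c (g⁻¹ • u) ∈ E := by
      have h6 : Sum.elim (g • c) u = g • Sum.elim c (g⁻¹ • u) := by
        rw [smul_elim, smul_inv_smul]
      rw [h6, hinv E hE]
    rw [h5, ← h4, h2, h3]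
  -- enumeration
  let K : Set T.V := ⋃ j : J, Set.range (e j)
  have hK : K.Countable := Set.countable_iUnion fun j => Set.countable_range (e j)
  by_cases hne : K.Nonempty
  · obtain ⟨d, hd⟩ := hK.exists_eq_range hne
    right
    refine ⟨d, ?_, ?_⟩
    · intro g hg i
      have : d i ∈ K := by rw [hd]; exact ⟨i, rfl⟩
      obtain ⟨j, l, hl⟩ := Set.mem_iUnion.1 this
      rw [← hl]
      exact congrFun (hfix j g hg) l
    · intro g hg
      apply hall g
      intro j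
      ext l
      have : e j l ∈ K := Set.mem_iUnion.2 ⟨j, l, rfl⟩
      rw [hd] at this
      obtain ⟨i, hi⟩ := this
      show ((g • e j l : T.V) : C) = _
      rw [← hi, hg i]
  · left
    intro g
    apply hall g
    intro j
    ext l
    exact absurd ⟨e j l, Set.mem_iUnion.2 ⟨j, l, rfl⟩⟩ hne

end Pool.Agent.Helper90.TS
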